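import Pool.Agent.Helper14.LE.Stmts

/-!
# Module GQ2: integral bounds for the quadrant kernel
-/

open MeasureTheory Set Filter Topology

noncomputable section

namespace LEP

namespace GQ2

lemma integral_radial (f : ℝ → ℝ) :
    ∫ x : ℂ, f ‖x‖ = 2 * Real.pi * ∫ y in Ioi (0 : ℝ), y * f y := by
  have h := integral_fun_norm_addHaar (μ := (volume : Measure ℂ)) f
  rw [h]
  simp [Complex.finrank_real_complex, measureReal_def, Complex.volume_ball]
  ring

lemma integrable_radial (f : ℝ → ℝ) :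
    Integrable (fun x : ℂ => f ‖x‖) ↔ IntegrableOn (fun y : ℝ => y * f y) (Ioi 0) := by
  have h := integrable_fun_norm_addHaar (μ := (volume : Measure ℂ)) (f := f)
  rw [h]
  simp [Complex.finrank_real_complex]

open Classical in
/-- radial power near `x`. -/
def NN (x : ℂ) (a ρ : ℝ) (y : ℂ) : ℝ := if ‖x - y‖ < ρ then ‖x - y‖ ^ (-a) else 0

open Classical in
/-- radial power far away. -/
def FF (a ρ : ℝ) (y : ℂ) : ℝ := if ρ < ‖y‖ then ‖y‖ ^ (-a) else 0

lemma NN_nonneg (x : ℂ) (a ρ : ℝ) (y : ℂ) : 0 ≤ NN x a ρ y := by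
  unfold NN; split_ifs <;> positivity

lemma FF_nonneg (a ρ : ℝ) (y : ℂ) : 0 ≤ FF a ρ y := by
  unfold FF; split_ifs <;> positivity

lemma near (x : ℂ) {a ρ : ℝ} (ha : a < 2) (hρ : 0 < ρ) :
    Integrable (NN x a ρ) ∧ ∫ y, NN x a ρ y = 2 * Real.pi * (ρ ^ (2 - a) / (2 - a)) := by
  classical
  set f : ℝ → ℝ := (Iio ρ).indicator (fun t => t ^ (-a)) with hf
  have e1 : NN x a ρ = fun y => (fun z : ℂ => f ‖z‖) (x - y) := by
    funext y
    simp only [NN, hf, indicator, mem_Iio]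
  have e2 : ∀ t ∈ Ioi (0 : ℝ), t * f t = (Ioo 0 ρ).indicator (fun t => t ^ (1 - a)) t := by
    intro t ht
    have ht' : 0 < t := ht
    by_cases h : t < ρ
    · simp only [hf, indicator, mem_Iio, mem_Ioo, h, ht', and_self, if_true]
      rw [sub_eq_add_neg, Real.rpow_add ht', Real.rpow_one]
    · simp [hf, indicator, h]
  have hi : IntegrableOn (fun t : ℝ => t ^ (1 - a)) (Ioo 0 ρ) := by
    have := (intervalIntegral.intervalIntegrable_rpow' (a := 0) (b := ρ) (r := 1 - a)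
      (by linarith))
    rw [intervalIntegrable_iff_integrableOn_Ioo_of_le hρ.le] at this
    exact this
  have hi2 : IntegrableOn (fun y : ℝ => y * f y) (Ioi 0) := by
    rw [integrableOn_congr_fun e2 measurableSet_Ioi]
    exact ((integrable_indicator_iff measurableSet_Ioo).2 hi).integrableOn
  have hI : Integrable (fun z : ℂ => f ‖z‖) := (integrable_radial f).2 hi2
  constructor
  · rw [e1]
    exact hI.comp_sub_left x
  · rw [e1, integral_sub_left_eq_self (fun z : ℂ => f ‖z‖) volume x, integral_radial,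
      setIntegral_congr_fun measurableSet_Ioi e2, setIntegral_indicator measurableSet_Ioo]
    have e3 : Ioi (0 : ℝ) ∩ Ioo 0 ρ = Ioo 0 ρ := by
      ext t; simp only [mem_inter_iff, mem_Ioi, mem_Ioo]; tauto
    rw [e3, ← integral_Ioc_eq_integral_Ioo, ← intervalIntegral.integral_of_le hρ.le,
      integral_rpow (Or.inl (by linarith))]
    have e4 : (1 - a + 1) = 2 - a := by ring
    rw [e4, Real.zero_rpow (by linarith), sub_zero]

lemma far {a ρ : ℝ} (ha : 2 < a) (hρ : 0 < ρ) :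
    Integrable (FF a ρ) ∧ ∫ y, FF a ρ y = 2 * Real.pi * (ρ ^ (2 - a) / (a - 2)) := by
  classical
  set f : ℝ → ℝ := (Ioi ρ).indicator (fun t => t ^ (-a)) with hf
  have e1 : FF a ρ = fun y => f ‖y‖ := by
    funext y
    simp only [FF, hf, indicator, mem_Ioi]
  have e2 : ∀ t ∈ Ioi (0 : ℝ), t * f t = (Ioi ρ).indicator (fun t => t ^ (1 - a)) t := by
    intro t ht
    have ht' : 0 < t := ht
    by_cases h : ρ < t
    · simp only [hf, indicator, mem_Ioi, h, if_true]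
      rw [sub_eq_add_neg, Real.rpow_add ht', Real.rpow_one]
    · simp [hf, indicator, h]
  have hi : IntegrableOn (fun t : ℝ => t ^ (1 - a)) (Ioi ρ) :=
    integrableOn_Ioi_rpow_of_lt (by linarith) hρ
  have hi2 : IntegrableOn (fun y : ℝ => y * f y) (Ioi 0) := by
    rw [integrableOn_congr_fun e2 measurableSet_Ioi]
    exact ((integrable_indicator_iff measurableSet_Ioi).2 hi).integrableOn
  have hI : Integrable (fun z : ℂ => f ‖z‖) := (integrable_radial f).2 hi2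
  constructor
  · rw [e1]
    exact hI
  · rw [e1, integral_radial,
      setIntegral_congr_fun measurableSet_Ioi e2, setIntegral_indicator measurableSet_Ioi]
    have e3 : Ioi (0 : ℝ) ∩ Ioi ρ = Ioi ρ := by
      ext t; simp only [mem_inter_iff, mem_Ioi]
      constructor
      · exact fun h => h.2
      · exact fun h => ⟨hρ.trans h, h⟩
    rw [e3, integral_Ioi_rpow_of_lt (by linarith) hρ]
    have e4 : (1 - a + 1) = 2 - a := by ring
    rw [e4]
    have : a - 2 ≠ 0 := by linarith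
    have : 2 - a ≠ 0 := by linarith
    field_simp
    ring

lemma bd {A : Set ℂ} (hA : MeasurableSet A) {F H : ℂ → ℝ} (hF : Measurable F)
    (h0 : ∀ y ∈ A, 0 ≤ F y) (hH : ∀ y ∈ A, F y ≤ H y) (hH0 : ∀ y, 0 ≤ H y)
    (hHi : Integrable H) : IntegrableOn F A ∧ ∫ y in A, F y ≤ ∫ y, H y := by
  have h1 : IntegrableOn F A := by
    refine Integrable.mono' (g := H) hHi.integrableOn hF.aestronglyMeasurable ?_
    filter_upwards [ae_restrict_mem hA] with y hy
    rw [Real.norm_of_nonneg (h0 y hy)]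
    exact hH y hy
  refine ⟨h1, ?_⟩
  calc ∫ y in A, F y ≤ ∫ y in A, H y := setIntegral_mono_on h1 hHi.integrableOn hA hH
    _ ≤ ∫ y, H y := setIntegral_le_integral hHi (Eventually.of_forall hH0)

lemma meas_GQ (x : ℂ) : Measurable (fun y => GQ x y) := by
  unfold GQ
  refine Measurable.const_mul ?_ _
  refine Real.measurable_log.comp ?_
  refine Measurable.const_add ?_ _
  refine Measurable.div ?_ ?_
  · refine Measurable.const_mul ?_ _
    exact (Complex.measurable_im.comp (measurable_id.pow_const 2))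
  · refine Measurable.pow_const ?_ 2
    exact (measurable_const.sub (measurable_id.pow_const 2)).norm

lemma GQ_self (x : ℂ) : GQ x x = 0 := by simp [GQ]

lemma measQd : MeasurableSet Qd := by
  have : IsOpen Qd := by
    have : Qd = {z : ℂ | 0 < z.re} ∩ {z | 0 < z.im} := rfl
    rw [this]
    exact (isOpen_lt continuous_const Complex.continuous_re).inter
      (isOpen_lt continuous_const Complex.continuous_im)
  exact this.measurableSet

lemma norm_pos_Qd {x : ℂ} (hx : x ∈ Qd) : 0 < ‖x‖ := by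
  rw [norm_pos_iff]
  rintro rfl
  exact lt_irrefl _ hx.1

lemma psi_pos {x : ℂ} (hx : x ∈ Qd) : 0 < psi x := by
  unfold psi
  exact div_pos (mul_pos hx.1 hx.2) (norm_pos_Qd hx)

lemma im_sq {x : ℂ} (hx : x ∈ Qd) : (x ^ 2).im = 2 * ‖x‖ * psi x := by
  have h := norm_pos_Qd hx
  unfold psi
  rw [pow_two, Complex.mul_im]
  field_simp
  ring

lemma im_sq_le (y : ℂ) : (y ^ 2).im ≤ ‖y‖ ^ 2 := by
  calc (y ^ 2).im ≤ |(y ^ 2).im| := le_abs_self _
    _ ≤ ‖y ^ 2‖ := Complex.abs_im_le_norm _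
    _ = ‖y‖ ^ 2 := norm_pow _ _

/-- bound (ii) in power form, valid for all `y`. -/
lemma near_pow (h1 : ST_GQ1) {x : ℂ} (hx : x ∈ Qd) {y : ℂ} (hy : y ∈ Qd) {p : ℝ} (hp : 0 < p) :
    GQ x y ^ p ≤ ((2 / Real.pi) * psi x) ^ p * ‖x - y‖ ^ (-p) := by
  have hpi := Real.pi_pos
  have hps := psi_pos hx
  by_cases hxy : x = y
  · subst hxy
    rw [GQ_self, Real.zero_rpow hp.ne', sub_self, norm_zero, Real.zero_rpow (by linarith), mul_zero]
  · have hd : 0 < ‖x - y‖ := norm_pos_iff.2 (sub_ne_zero.2 hxy)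
    have h := h1.2.2.1 x hx y hy hxy
    have h0 := (h1.1 x hx y hy).1
    calc GQ x y ^ p ≤ ((2 / Real.pi) * (psi x / ‖x - y‖)) ^ p :=
          Real.rpow_le_rpow h0 h hp.le
      _ = ((2 / Real.pi) * psi x) ^ p * ‖x - y‖ ^ (-p) := by
          rw [← mul_div_assoc, Real.div_rpow (by positivity) hd.le, Real.rpow_neg hd.le,
            div_eq_mul_inv]

theorem part1 (h1 : ST_GQ1) : ∃ C : ℝ, 0 < C ∧ ∀ x ∈ Qd,
    IntegrableOn (fun y => (GQ x y) ^ ((4 : ℝ) / 3)) Qd ∧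
    ∫ y in Qd, (GQ x y) ^ ((4 : ℝ) / 3) ≤ C * (psi x) ^ ((4 : ℝ) / 3) * ‖x‖ ^ ((2 : ℝ) / 3) := by
  have hpi := Real.pi_pos
  refine ⟨3 * Real.pi * (2 / Real.pi) ^ ((4 : ℝ) / 3) * 3 ^ ((2 : ℝ) / 3) +
    3 * Real.pi * 2 ^ ((2 : ℝ) / 3), by positivity, fun x hx => ?_⟩
  have hx0 := norm_pos_Qd hx
  have hps := psi_pos hx
  obtain ⟨n1, n2⟩ := near x (a := 4 / 3) (ρ := 3 * ‖x‖) (by norm_num) (by positivity)
  obtain ⟨f1, f2⟩ := far (a := 8 / 3) (ρ := 2 * ‖x‖) (by norm_num) (by positivity)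
  set c1 := ((2 / Real.pi) * psi x) ^ ((4 : ℝ) / 3) with hc1
  set c2 := (2 * ‖x‖ * psi x) ^ ((4 : ℝ) / 3) with hc2
  have hc1p : 0 ≤ c1 := by positivity
  have hc2p : 0 ≤ c2 := by positivity
  obtain ⟨b1, b2⟩ := bd (A := Qd) (F := fun y => (GQ x y) ^ ((4 : ℝ) / 3))
    (H := fun y => c1 * NN x (4 / 3) (3 * ‖x‖) y + c2 * FF (8 / 3) (2 * ‖x‖) y) measQd
    ((meas_GQ x).pow_const _)
    (fun y hy => Real.rpow_nonneg (h1.1 x hx y hy).1 _)
    (by
      intro y hy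
      by_cases hyx : 2 * ‖x‖ < ‖y‖
      · have e : FF (8 / 3) (2 * ‖x‖) y = ‖y‖ ^ (-(8 / 3 : ℝ)) := by simp [FF, hyx]
        have hy0 := norm_pos_Qd hy
        have h := h1.2.2.2.1 x hx y hy hyx.le
        have h0 := (h1.1 x hx y hy).1
        have : GQ x y ^ ((4 : ℝ) / 3) ≤ c2 * ‖y‖ ^ (-(8 / 3 : ℝ)) := by
          calc GQ x y ^ ((4 : ℝ) / 3) ≤ (2 * ‖x‖ * psi x / ‖y‖ ^ 2) ^ ((4 : ℝ) / 3) :=
                Real.rpow_le_rpow h0 h (by norm_num)
            _ = c2 * ‖y‖ ^ (-(8 / 3 : ℝ)) := by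
                rw [Real.div_rpow (by positivity) (by positivity), ← Real.rpow_natCast,
                  ← Real.rpow_mul hy0.le, Real.rpow_neg hy0.le, div_eq_mul_inv, hc2]
                norm_num
        show GQ x y ^ ((4 : ℝ) / 3) ≤ c1 * NN x (4 / 3) (3 * ‖x‖) y + c2 * FF (8 / 3) (2 * ‖x‖) y
        rw [e]
        have := mul_nonneg hc1p (NN_nonneg x (4 / 3) (3 * ‖x‖) y)
        linarith
      · push Not at hyx
        have hle := near_pow h1 hx hy (p := 4 / 3) (by norm_num)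
        have h3 : ‖x - y‖ ≤ 3 * ‖x‖ := by
          calc ‖x - y‖ ≤ ‖x‖ + ‖y‖ := norm_sub_le _ _
            _ ≤ _ := by linarith
        have hlt : ‖x - y‖ < 3 * ‖x‖ := by
          refine lt_of_le_of_ne h3 ?_
          intro heq
          -- equality would force opposite directions
          have hre : (x - y).re ^ 2 + (x - y).im ^ 2 = ‖x - y‖ ^ 2 := by
            rw [← Complex.normSq_eq_norm_sq, Complex.normSq_apply]; ring
          have hxx : x.re ^ 2 + x.im ^ 2 = ‖x‖ ^ 2 := by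
            rw [← Complex.normSq_eq_norm_sq, Complex.normSq_apply]; ring
          have hyy : y.re ^ 2 + y.im ^ 2 = ‖y‖ ^ 2 := by
            rw [← Complex.normSq_eq_norm_sq, Complex.normSq_apply]; ring
          rw [Complex.sub_re, Complex.sub_im] at hre
          have p1 := mul_pos hx.1 hy.1
          have p2 := mul_pos hx.2 hy.2
          have h4 : ‖y‖ ^ 2 ≤ (2 * ‖x‖) ^ 2 := pow_le_pow_left₀ (norm_nonneg _) hyx 2
          rw [heq] at hre
          nlinarith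
        have e : NN x (4 / 3) (3 * ‖x‖) y = ‖x - y‖ ^ (-(4 / 3 : ℝ)) := by simp [NN, hlt]
        show GQ x y ^ ((4 : ℝ) / 3) ≤ c1 * NN x (4 / 3) (3 * ‖x‖) y + c2 * FF (8 / 3) (2 * ‖x‖) y
        rw [e]
        have := mul_nonneg hc2p (FF_nonneg (8 / 3) (2 * ‖x‖) y)
        linarith)
    (fun y => add_nonneg (mul_nonneg hc1p (NN_nonneg _ _ _ _)) (mul_nonneg hc2p (FF_nonneg _ _ _)))
    ((n1.const_mul c1).add (f1.const_mul c2))
  refine ⟨b1, b2.trans (le_of_eq ?_)⟩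
  rw [integral_add (n1.const_mul c1) (f1.const_mul c2), integral_const_mul, integral_const_mul,
    n2, f2, hc1, hc2]
  rw [Real.mul_rpow (by positivity) hps.le, Real.mul_rpow (by positivity) hps.le,
    Real.mul_rpow (by norm_num) hx0.le, Real.mul_rpow (by norm_num) hx0.le,
    Real.mul_rpow (by norm_num) hx0.le]
  have e1 : (2 : ℝ) - 4 / 3 = 2 / 3 := by norm_num
  have e2 : (2 : ℝ) - 8 / 3 = -(2 / 3) := by norm_num
  have e3 : (8 : ℝ) / 3 - 2 = 2 / 3 := by norm_num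
  rw [e1, e2, e3]
  have e4 : (2 : ℝ) ^ ((4 : ℝ) / 3) = 2 ^ ((2 : ℝ) / 3) * 2 ^ ((2 : ℝ) / 3) := by
    rw [← Real.rpow_add (by norm_num)]; norm_num
  have e5 : ‖x‖ ^ ((4 : ℝ) / 3) = ‖x‖ ^ ((2 : ℝ) / 3) * ‖x‖ ^ ((2 : ℝ) / 3) := by
    rw [← Real.rpow_add hx0]; norm_num
  rw [e4, e5, Real.rpow_neg (by norm_num), Real.rpow_neg hx0.le]
  have g1 : (0 : ℝ) < 2 ^ ((2 : ℝ) / 3) := by positivity
  have g2 : (0 : ℝ) < ‖x‖ ^ ((2 : ℝ) / 3) := by positivity
  field_simp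

lemma lt_three {x y : ℂ} (hx : x ∈ Qd) (hy : y ∈ Qd) (hyx : ‖y‖ ≤ 2 * ‖x‖) :
    ‖x - y‖ < 3 * ‖x‖ := by
  have h3 : ‖x - y‖ ≤ 3 * ‖x‖ := by
    calc ‖x - y‖ ≤ ‖x‖ + ‖y‖ := norm_sub_le _ _
      _ ≤ _ := by linarith
  refine lt_of_le_of_ne h3 ?_
  intro heq
  have hre : (x - y).re ^ 2 + (x - y).im ^ 2 = ‖x - y‖ ^ 2 := by
    rw [← Complex.normSq_eq_norm_sq, Complex.normSq_apply]; ring
  have hxx : x.re ^ 2 + x.im ^ 2 = ‖x‖ ^ 2 := by
    rw [← Complex.normSq_eq_norm_sq, Complex.normSq_apply]; ring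
  have hyy : y.re ^ 2 + y.im ^ 2 = ‖y‖ ^ 2 := by
    rw [← Complex.normSq_eq_norm_sq, Complex.normSq_apply]; ring
  rw [Complex.sub_re, Complex.sub_im] at hre
  have p1 := mul_pos hx.1 hy.1
  have p2 := mul_pos hx.2 hy.2
  have h4 : ‖y‖ ^ 2 ≤ (2 * ‖x‖) ^ 2 := pow_le_pow_left₀ (norm_nonneg _) hyx 2
  rw [heq] at hre
  nlinarith

theorem part2 (h1 : ST_GQ1) : ∃ C : ℝ, 0 < C ∧ ∀ R : ℝ, ∀ x ∈ Qd, ‖x‖ < R →
    IntegrableOn (fun y => GQ x y * (y ^ 2).im) (Qd ∩ Metric.ball 0 R) ∧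
    ∫ y in Qd ∩ Metric.ball 0 R, GQ x y * (y ^ 2).im ≤ C * R ^ 2 * (x ^ 2).im := by
  have hpi := Real.pi_pos
  refine ⟨24 + Real.pi, by positivity, fun R x hx hxR => ?_⟩
  have hx0 := norm_pos_Qd hx
  have hps := psi_pos hx
  have hR : 0 < R := hx0.trans hxR
  obtain ⟨n1, n2⟩ := near x (a := 1) (ρ := 3 * ‖x‖) (by norm_num) (by positivity)
  obtain ⟨m1, m2⟩ := near 0 (a := 0) (ρ := R) (by norm_num) hR
  set c1 := (8 / Real.pi) * psi x * ‖x‖ ^ 2 with hc1
  set c2 := 2 * ‖x‖ * psi x with hc2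
  have hc1p : 0 ≤ c1 := by positivity
  have hc2p : 0 ≤ c2 := by positivity
  have hms : MeasurableSet (Qd ∩ Metric.ball (0 : ℂ) R) := measQd.inter measurableSet_ball
  have him : ∀ y ∈ Qd, 0 ≤ (y ^ 2).im := by
    intro y hy
    rw [im_sq hy]
    have := norm_pos_Qd hy
    have := psi_pos hy
    positivity
  obtain ⟨b1, b2⟩ := bd (A := Qd ∩ Metric.ball 0 R) (F := fun y => GQ x y * (y ^ 2).im)
    (H := fun y => c1 * NN x 1 (3 * ‖x‖) y + c2 * NN 0 0 R y) hms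
    ((meas_GQ x).mul (Complex.measurable_im.comp (measurable_id.pow_const 2)))
    (fun y hy => mul_nonneg (h1.1 x hx y hy.1).1 (him y hy.1))
    (by
      rintro y ⟨hy, hyR⟩
      have h0 := (h1.1 x hx y hy).1
      have hy0 := norm_pos_Qd hy
      show GQ x y * (y ^ 2).im ≤ c1 * NN x 1 (3 * ‖x‖) y + c2 * NN 0 0 R y
      by_cases hyx : 2 * ‖x‖ ≤ ‖y‖
      · have h := h1.2.2.2.1 x hx y hy hyx
        have e : NN 0 0 R y = 1 := by
          rw [mem_ball_zero_iff] at hyR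
          simp [NN, hyR]
        rw [e, mul_one]
        have h2 : GQ x y * (y ^ 2).im ≤ c2 := by
          calc GQ x y * (y ^ 2).im ≤ (2 * ‖x‖ * psi x / ‖y‖ ^ 2) * ‖y‖ ^ 2 :=
                mul_le_mul h (im_sq_le y) (him y hy) (by positivity)
            _ = c2 := by rw [hc2]; field_simp
        have := mul_nonneg hc1p (NN_nonneg x 1 (3 * ‖x‖) y)
        linarith
      · push Not at hyx
        have hlt := lt_three hx hy hyx.le
        have e : NN x 1 (3 * ‖x‖) y = ‖x - y‖ ^ (-(1 : ℝ)) := by simp [NN, hlt]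
        rw [e]
        have hle := near_pow h1 hx hy (p := 1) (by norm_num)
        rw [Real.rpow_one, Real.rpow_one] at hle
        have h4 : (y ^ 2).im ≤ 4 * ‖x‖ ^ 2 := by
          have := pow_le_pow_left₀ (norm_nonneg _) hyx.le 2
          have := im_sq_le y
          nlinarith
        have h5 : GQ x y * (y ^ 2).im ≤ c1 * ‖x - y‖ ^ (-(1 : ℝ)) := by
          calc GQ x y * (y ^ 2).im ≤ (2 / Real.pi * psi x * ‖x - y‖ ^ (-(1 : ℝ))) * (4 * ‖x‖ ^ 2) :=
                mul_le_mul hle h4 (him y hy) (by positivity)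
            _ = c1 * ‖x - y‖ ^ (-(1 : ℝ)) := by rw [hc1]; ring
        have := mul_nonneg hc2p (NN_nonneg 0 0 R y)
        linarith)
    (fun y => add_nonneg (mul_nonneg hc1p (NN_nonneg _ _ _ _)) (mul_nonneg hc2p (NN_nonneg _ _ _ _)))
    ((n1.const_mul c1).add (m1.const_mul c2))
  refine ⟨b1, b2.trans ?_⟩
  rw [integral_add (n1.const_mul c1) (m1.const_mul c2), integral_const_mul, integral_const_mul,
    n2, m2, hc1, hc2, im_sq hx]
  have e1 : (2 : ℝ) - 1 = 1 := by norm_num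
  rw [e1, Real.rpow_one, sub_zero, Real.rpow_two]
  have e5 : 8 / Real.pi * psi x * ‖x‖ ^ 2 * (2 * Real.pi * (3 * ‖x‖ / 1)) +
      2 * ‖x‖ * psi x * (2 * Real.pi * (R ^ 2 / 2)) =
      (24 * ‖x‖ ^ 2 + Real.pi * R ^ 2) * (2 * ‖x‖ * psi x) := by
    field_simp
    ring
  rw [e5]
  have e6 : ‖x‖ ^ 2 ≤ R ^ 2 := pow_le_pow_left₀ hx0.le hxR.le 2
  have e7 : 0 ≤ 2 * ‖x‖ * psi x := by positivity
  calc (24 * ‖x‖ ^ 2 + Real.pi * R ^ 2) * (2 * ‖x‖ * psi x) ≤
      (24 * R ^ 2 + Real.pi * R ^ 2) * (2 * ‖x‖ * psi x) := by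
        apply mul_le_mul_of_nonneg_right _ e7
        linarith
    _ = _ := by ring

/-- bound (i) with a power instead of the logarithm. -/
lemma log_pow (h1 : ST_GQ1) {R : ℝ} {x : ℂ} (hx : x ∈ Qd) (hxR : ‖x‖ < R) {y : ℂ} (hy : y ∈ Qd)
    (hyR : ‖y‖ < R) {p ε : ℝ} (hp : 0 < p) (hε : 0 < ε) :
    GQ x y ^ p ≤ (1 / (2 * Real.pi * ε)) ^ p * (4 * R) ^ (ε * p) * ‖x - y‖ ^ (-(ε * p)) := by
  have hpi := Real.pi_pos
  have hR : 0 < R := (norm_pos_Qd hx).trans hxR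
  have hep : 0 < ε * p := mul_pos hε hp
  by_cases hxy : x = y
  · subst hxy
    rw [GQ_self, Real.zero_rpow hp.ne', sub_self, norm_zero, Real.zero_rpow (by linarith), mul_zero]
  · have hd : 0 < ‖x - y‖ := norm_pos_iff.2 (sub_ne_zero.2 hxy)
    have h := h1.2.1 R x hx y hy hxR.le hyR.le hxy
    have h0 := (h1.1 x hx y hy).1
    have hl : Real.log (4 * R / ‖x - y‖) ≤ (4 * R / ‖x - y‖) ^ ε / ε :=
      Real.log_le_rpow_div (by positivity) hε
    have h2 : GQ x y ≤ (1 / (2 * Real.pi * ε)) * (4 * R / ‖x - y‖) ^ ε := by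
      calc GQ x y ≤ (1 / (2 * Real.pi)) * Real.log (4 * R / ‖x - y‖) := h
        _ ≤ (1 / (2 * Real.pi)) * ((4 * R / ‖x - y‖) ^ ε / ε) :=
            mul_le_mul_of_nonneg_left hl (by positivity)
        _ = _ := by field_simp
    calc GQ x y ^ p ≤ ((1 / (2 * Real.pi * ε)) * (4 * R / ‖x - y‖) ^ ε) ^ p :=
          Real.rpow_le_rpow h0 h2 hp.le
      _ = _ := by
          rw [Real.mul_rpow (by positivity) (by positivity), ← Real.rpow_mul (by positivity),
            Real.div_rpow (by positivity) hd.le, Real.rpow_neg hd.le, div_eq_mul_inv]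
          ring

lemma lt_two {x y : ℂ} {R : ℝ} (hxR : ‖x‖ < R) (hyR : ‖y‖ < R) : ‖x - y‖ < 2 * R := by
  calc ‖x - y‖ ≤ ‖x‖ + ‖y‖ := norm_sub_le _ _
    _ < _ := by linarith

theorem part3 (h1 : ST_GQ1) : ∀ R : ℝ, 0 < R → ∃ C : ℝ, 0 < C ∧ ∀ x ∈ Qd, ‖x‖ < R →
    IntegrableOn (fun y => (GQ x y) ^ 8) (Qd ∩ Metric.ball 0 R) ∧
    ∫ y in Qd ∩ Metric.ball 0 R, (GQ x y) ^ 8 ≤ C := by
  intro R hR
  have hpi := Real.pi_pos
  set c := (1 / (2 * Real.pi * (1 / 8))) ^ (8 : ℝ) * (4 * R) ^ ((1 / 8 : ℝ) * 8) with hc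
  have hcp : 0 < c := by positivity
  refine ⟨c * (2 * Real.pi * ((2 * R) ^ ((2 : ℝ) - 1) / (2 - 1))), by
    have : (0 : ℝ) < 2 - 1 := by norm_num
    positivity, fun x hx hxR => ?_⟩
  obtain ⟨n1, n2⟩ := near x (a := 1) (ρ := 2 * R) (by norm_num) (by positivity)
  have hms : MeasurableSet (Qd ∩ Metric.ball (0 : ℂ) R) := measQd.inter measurableSet_ball
  obtain ⟨b1, b2⟩ := bd (A := Qd ∩ Metric.ball 0 R) (F := fun y => (GQ x y) ^ 8)
    (H := fun y => c * NN x 1 (2 * R) y) hms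
    ((meas_GQ x).pow_const 8)
    (fun y hy => pow_nonneg (h1.1 x hx y hy.1).1 _)
    (by
      rintro y ⟨hy, hyR⟩
      rw [mem_ball_zero_iff] at hyR
      have h := log_pow h1 hx hxR hy hyR (p := 8) (ε := 1 / 8) (by norm_num) (by norm_num)
      have hlt := lt_two hxR hyR
      have e : NN x 1 (2 * R) y = ‖x - y‖ ^ (-(1 : ℝ)) := by simp [NN, hlt]
      show (GQ x y) ^ 8 ≤ c * NN x 1 (2 * R) y
      rw [e, hc]
      have e8 : (GQ x y) ^ 8 = (GQ x y) ^ (8 : ℝ) := by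
        rw [← Real.rpow_natCast]; norm_num
      have e9 : (-(1 : ℝ)) = -((1 / 8 : ℝ) * 8) := by norm_num
      rw [e8, e9]
      exact h)
    (fun y => mul_nonneg hcp.le (NN_nonneg _ _ _ _))
    (n1.const_mul c)
  refine ⟨b1, b2.trans (le_of_eq ?_)⟩
  rw [integral_const_mul, n2]

theorem part4 (h1 : ST_GQ1) : ∀ R : ℝ, 0 < R → ∃ C : ℝ, 0 < C ∧ ∀ x ∈ Qd, ‖x‖ < R →
    IntegrableOn (fun y => (GQ x y) ^ 2) (Qd ∩ Metric.ball 0 R) ∧
    ∫ y in Qd ∩ Metric.ball 0 R, (GQ x y) ^ 2 ≤ C * (psi x) ^ ((4 : ℝ) / 3) := by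
  intro R hR
  have hpi := Real.pi_pos
  set c := (1 / (2 * Real.pi * (1 / 2))) ^ ((2 : ℝ) / 3) * (4 * R) ^ ((1 / 2 : ℝ) * (2 / 3)) with hc
  have hcp : 0 < c := by positivity
  refine ⟨(2 / Real.pi) ^ ((4 : ℝ) / 3) * c *
    (2 * Real.pi * ((2 * R) ^ ((2 : ℝ) - 5 / 3) / (2 - 5 / 3))), by
    have : (0 : ℝ) < 2 - 5 / 3 := by norm_num
    positivity, fun x hx hxR => ?_⟩
  have hps := psi_pos hx
  obtain ⟨n1, n2⟩ := near x (a := 5 / 3) (ρ := 2 * R) (by norm_num) (by positivity)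
  have hms : MeasurableSet (Qd ∩ Metric.ball (0 : ℂ) R) := measQd.inter measurableSet_ball
  set d := ((2 / Real.pi) * psi x) ^ ((4 : ℝ) / 3) with hd
  have hdp : 0 < d := by positivity
  obtain ⟨b1, b2⟩ := bd (A := Qd ∩ Metric.ball 0 R) (F := fun y => (GQ x y) ^ 2)
    (H := fun y => (d * c) * NN x (5 / 3) (2 * R) y) hms
    ((meas_GQ x).pow_const 2)
    (fun y hy => pow_nonneg (h1.1 x hx y hy.1).1 _)
    (by
      rintro y ⟨hy, hyR⟩
      rw [mem_ball_zero_iff] at hyR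
      have h := log_pow h1 hx hxR hy hyR (p := 2 / 3) (ε := 1 / 2) (by norm_num) (by norm_num)
      have h' := near_pow h1 hx hy (p := 4 / 3) (by norm_num)
      have hlt := lt_two hxR hyR
      have e : NN x (5 / 3) (2 * R) y = ‖x - y‖ ^ (-(5 / 3 : ℝ)) := by simp [NN, hlt]
      show (GQ x y) ^ 2 ≤ (d * c) * NN x (5 / 3) (2 * R) y
      rw [e]
      by_cases hxy : x = y
      · subst hxy
        rw [GQ_self, sub_self, norm_zero, Real.zero_rpow (by norm_num), mul_zero]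
        norm_num
      · have hdd : 0 < ‖x - y‖ := norm_pos_iff.2 (sub_ne_zero.2 hxy)
        have h0 := (h1.1 x hx y hy).1
        have e8 : (GQ x y) ^ 2 = (GQ x y) ^ ((4 : ℝ) / 3) * (GQ x y) ^ ((2 : ℝ) / 3) := by
          rcases h0.eq_or_lt with h00 | h00
          · rw [← h00, Real.zero_rpow (by norm_num)]; norm_num
          · rw [← Real.rpow_add h00, ← Real.rpow_natCast]; norm_num
        have e9 : ‖x - y‖ ^ (-(5 / 3 : ℝ)) = ‖x - y‖ ^ (-(4 / 3 : ℝ)) *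
            ‖x - y‖ ^ (-((1 / 2 : ℝ) * (2 / 3))) := by
          rw [← Real.rpow_add hdd]; norm_num
        rw [e8, e9]
        calc (GQ x y) ^ ((4 : ℝ) / 3) * (GQ x y) ^ ((2 : ℝ) / 3) ≤
            (d * ‖x - y‖ ^ (-(4 / 3 : ℝ))) * (c * ‖x - y‖ ^ (-((1 / 2 : ℝ) * (2 / 3)))) :=
              mul_le_mul h' h (Real.rpow_nonneg h0 _) (by positivity)
          _ = _ := by ring)
    (fun y => mul_nonneg (by positivity) (NN_nonneg _ _ _ _))
    (n1.const_mul (d * c))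
  refine ⟨b1, b2.trans (le_of_eq ?_)⟩
  rw [integral_const_mul, n2, hd, Real.mul_rpow (by positivity) hps.le]
  ring

end GQ2

/-- **GQ2** integral bounds of the quadrant kernel. -/
theorem st_GQ2 (h1 : ST_GQ1) : ST_GQ2 :=
  ⟨GQ2.part1 h1, GQ2.part2 h1, GQ2.part3 h1, GQ2.part4 h1⟩

end LEP
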