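import Pool.Agent.Helper14.LE.Stmts2

/-!
# Module KAP: the kernels as elements of `L²(D)`
-/

open MeasureTheory Set Filter Topology InnerProductSpace

noncomputable section

namespace LEP

namespace KAP

lemma Ddom_sub (R : ℝ → ℝ) : Ddom R ⊆ Qd := inter_subset_right

lemma norm_pos_Qd {x : ℂ} (hx : x ∈ Qd) : 0 < ‖x‖ := by
  rw [norm_pos_iff]
  rintro rfl
  exact lt_irrefl _ hx.1

lemma psi_pos {x : ℂ} (hx : x ∈ Qd) : 0 < psi x := by
  unfold psi
  exact div_pos (mul_pos hx.1 hx.2) (norm_pos_Qd hx)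

lemma psi_le {x : ℂ} (hx : x ∈ Qd) : psi x ≤ ‖x‖ := by
  have h := norm_pos_Qd hx
  unfold psi
  rw [div_le_iff₀ h]
  have h1 : x.re ≤ ‖x‖ := (le_abs_self _).trans (Complex.abs_re_le_norm x)
  have h2 : x.im ≤ ‖x‖ := (le_abs_self _).trans (Complex.abs_im_le_norm x)
  exact mul_le_mul h1 h2 hx.2.le h.le

lemma meas_psi : Measurable psi := by
  unfold psi
  exact (Complex.measurable_re.mul Complex.measurable_im).div measurable_norm

lemma cont_psi {x : ℂ} (hx : x ∈ Qd) : ContinuousAt psi x := by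
  unfold psi
  exact (Complex.continuous_re.mul Complex.continuous_im).continuousAt.div
    continuous_norm.continuousAt (norm_pos_Qd hx).ne'

lemma meas_tau : Measurable tau := by
  unfold tau
  exact measurable_const.min (measurable_norm.pow_const _)

lemma tau_nonneg (y : ℂ) : 0 ≤ tau y := by
  unfold tau
  exact le_min (by norm_num) (by positivity)

lemma tau_pow (y : ℂ) : tau y ^ 20 ≤ ‖y‖ ^ 5 := by
  calc tau y ^ 20 ≤ (‖y‖ ^ ((1 : ℝ) / 4)) ^ 20 :=
        pow_le_pow_left₀ (tau_nonneg y) (min_le_right _ _) 20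
    _ = ‖y‖ ^ 5 := by
        rw [← Real.rpow_natCast, ← Real.rpow_mul (norm_nonneg _), ← Real.rpow_natCast]
        norm_num

section

variable {R : ℝ → ℝ}

lemma gmeas (hM : ST_MEAS) (hG : ST_GF2) (hE : ST_GEO) (hR : Prof R) (x : ℂ) :
    Measurable (gD (Ddom R) x) := by
  have h := (hM (Ddom R) (gD (Ddom R)) ((hE.1 R hR).2.1) (hG R hR)).1
  exact h.comp (measurable_const.prodMk measurable_id)

lemma memLp (h2 : ST_T2) (hM : ST_MEAS) (hG : ST_GF2) (hE : ST_GEO) (hR : Prof R) {x : ℂ}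
    (hx : x ∈ Ddom R) : MemLp (gD (Ddom R) x) 2 (volume.restrict (Ddom R)) := by
  rw [memLp_two_iff_integrable_sq (gmeas hM hG hE hR x).aestronglyMeasurable]
  exact (h2 R hR).1 x hx

lemma kap_eq {D : Set ℂ} {x : ℂ} (hx : x ∈ D) (h : MemLp (gD D x) 2 (volume.restrict D)) :
    kap D x = (psi x)⁻¹ • h.toLp := by
  unfold kap
  rw [dif_pos ⟨hx, h⟩]

lemma inner_v {D : Set ℂ} {x : ℂ} (hx : x ∈ D) (h : MemLp (gD D x) 2 (volume.restrict D))
    (v : Lp ℝ 2 (volume.restrict D)) : ⟪kap D x, v⟫_ℝ = TD D v x / psi x := by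
  rw [kap_eq hx h, real_inner_smul_left, L2.inner_def]
  unfold TD
  have : ∫ a in D, ⟪(h.toLp : ℂ → ℝ) a, v a⟫_ℝ = ∫ y in D, gD D x y * v y := by
    refine integral_congr_ae ?_
    filter_upwards [h.coeFn_toLp] with a ha
    rw [ha]
    simp [mul_comm]
  rw [this]
  ring

lemma inner_kap (hG : ST_GF2) (hE : ST_GEO) (hR : Prof R) {x y : ℂ} (hx : x ∈ Ddom R)
    (hy : y ∈ Ddom R) (hX : MemLp (gD (Ddom R) x) 2 (volume.restrict (Ddom R)))
    (hY : MemLp (gD (Ddom R) y) 2 (volume.restrict (Ddom R))) :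
    ⟪kap (Ddom R) x, kap (Ddom R) y⟫_ℝ = Gt (Ddom R) x y := by
  have hDm : MeasurableSet (Ddom R) := ((hE.1 R hR).2.1).measurableSet
  rw [kap_eq hy hY, real_inner_smul_right, inner_v hx hX]
  unfold Gt Gam TD
  have : ∫ z in Ddom R, gD (Ddom R) x z * (hY.toLp : ℂ → ℝ) z =
      ∫ z in Ddom R, gD (Ddom R) x z * gD (Ddom R) z y := by
    refine integral_congr_ae ?_
    filter_upwards [hY.coeFn_toLp, ae_restrict_mem hDm] with a ha haD
    rw [ha, (hG R hR).symm y hy a haD]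
  rw [this]
  have h1 := (psi_pos (Ddom_sub R hx)).ne'
  have h2 := (psi_pos (Ddom_sub R hy)).ne'
  field_simp

end

end KAP

open KAP in
/-- **KAP** -/
theorem st_KAP (h1 : ST_GQ1) (hQ : ST_GQ2) (h2 : ST_T2) (hM : ST_MEAS) (hG : ST_GF2)
    (hE : ST_GEO) : ST_KAP := by
  intro R hR
  have hDo : IsOpen (Ddom R) := (hE.1 R hR).2.1
  have hDm : MeasurableSet (Ddom R) := hDo.measurableSet
  have hmem : ∀ x ∈ Ddom R, MemLp (gD (Ddom R) x) 2 (volume.restrict (Ddom R)) :=
    fun x hx => memLp h2 hM hG hE hR hx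
  have hin : ∀ x ∈ Ddom R, ∀ y ∈ Ddom R,
      ⟪kap (Ddom R) x, kap (Ddom R) y⟫_ℝ = Gt (Ddom R) x y :=
    fun x hx y hy => inner_kap hG hE hR hx hy (hmem x hx) (hmem y hy)
  have hcont : ContinuousOn (kap (Ddom R)) (Ddom R) := by
    intro x hx
    have hGc := (h2 R hR).2.2.2.2.2.2
    have hxx : Tendsto (fun y => Gt (Ddom R) y y) (𝓝[Ddom R] x) (𝓝 (Gt (Ddom R) x x)) := by
      have e1 : Tendsto (fun y : ℂ => (y, y)) (𝓝[Ddom R] x) (𝓝[Ddom R ×ˢ Ddom R] (x, x)) := by
        refine tendsto_nhdsWithin_iff.2 ⟨?_, ?_⟩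
        · exact (Continuous.tendsto (by fun_prop) x).mono_left nhdsWithin_le_nhds
        · filter_upwards [self_mem_nhdsWithin] with y hy
          exact ⟨hy, hy⟩
      have e2 := (hGc (x, x) ⟨hx, hx⟩).tendsto.comp e1
      have e3 : Tendsto (fun y => psi y * psi y) (𝓝[Ddom R] x) (𝓝 (psi x * psi x)) :=
        ((cont_psi (Ddom_sub R hx)).mul (cont_psi (Ddom_sub R hx))).tendsto.mono_left
          nhdsWithin_le_nhds
      exact e2.div e3 (mul_pos (psi_pos (Ddom_sub R hx)) (psi_pos (Ddom_sub R hx))).ne'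
    have hxy : Tendsto (fun y => Gt (Ddom R) y x) (𝓝[Ddom R] x) (𝓝 (Gt (Ddom R) x x)) := by
      have e1 : Tendsto (fun y : ℂ => (y, x)) (𝓝[Ddom R] x) (𝓝[Ddom R ×ˢ Ddom R] (x, x)) := by
        refine tendsto_nhdsWithin_iff.2 ⟨?_, ?_⟩
        · exact (Continuous.tendsto (by fun_prop) x).mono_left nhdsWithin_le_nhds
        · filter_upwards [self_mem_nhdsWithin] with y hy
          exact ⟨hy, hx⟩
      have e2 := (hGc (x, x) ⟨hx, hx⟩).tendsto.comp e1
      have e3 : Tendsto (fun y => psi y * psi x) (𝓝[Ddom R] x) (𝓝 (psi x * psi x)) :=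
        ((cont_psi (Ddom_sub R hx)).mul continuousAt_const).tendsto.mono_left
          nhdsWithin_le_nhds
      exact e2.div e3 (mul_pos (psi_pos (Ddom_sub R hx)) (psi_pos (Ddom_sub R hx))).ne'
    have hsq : Tendsto (fun y => ‖kap (Ddom R) y - kap (Ddom R) x‖ ^ 2) (𝓝[Ddom R] x) (𝓝 0) := by
      have e4 : Tendsto (fun y => Gt (Ddom R) y y - 2 * Gt (Ddom R) y x + Gt (Ddom R) x x)
          (𝓝[Ddom R] x) (𝓝 (Gt (Ddom R) x x - 2 * Gt (Ddom R) x x + Gt (Ddom R) x x)) :=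
        (hxx.sub (hxy.const_mul 2)).add_const _
      have e5 : Gt (Ddom R) x x - 2 * Gt (Ddom R) x x + Gt (Ddom R) x x = 0 := by ring
      rw [e5] at e4
      refine e4.congr' ?_
      filter_upwards [self_mem_nhdsWithin] with y hy
      rw [norm_sub_sq_real, ← real_inner_self_eq_norm_sq, ← real_inner_self_eq_norm_sq,
        hin y hy y hy, hin y hy x hx, hin x hx x hx]
    have hn : Tendsto (fun y => ‖kap (Ddom R) y - kap (Ddom R) x‖) (𝓝[Ddom R] x) (𝓝 0) := by
      have := hsq.sqrt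
      simp only [Real.sqrt_zero] at this
      refine this.congr fun y => ?_
      rw [Real.sqrt_sq (norm_nonneg _)]
    exact tendsto_iff_norm_sub_tendsto_zero.2 hn
  have hsm : StronglyMeasurable (kap (Ddom R)) := by
    refine stronglyMeasurable_of_restrict_of_restrict_compl hDm ?_ ?_
    · exact (continuousOn_iff_continuous_domRestrict.1 hcont).stronglyMeasurable
    · have : (Ddom R)ᶜ.domRestrict (kap (Ddom R)) = fun _ => 0 := by
        funext z
        have hz : (z : ℂ) ∉ Ddom R := z.2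
        simp only [domRestrict_apply]
        unfold kap
        rw [dif_neg (fun h => hz h.1)]
      rw [this]
      exact stronglyMeasurable_const
  refine ⟨hmem, hin, fun x hx v => inner_v hx (hmem x hx) v, hcont, hsm, ?_⟩
  -- integrability
  obtain ⟨B, hB⟩ := hR.bdd
  have hB1 : 1 ≤ B := (hR.one_le 0).trans (hB 0)
  have hB0 : 0 < B := by linarith
  obtain ⟨C, hC, hCb⟩ := hQ.2.2.2 B hB0
  have hsub : Ddom R ⊆ Qd ∩ Metric.ball 0 B := by
    intro y hy
    refine ⟨Ddom_sub R hy, ?_⟩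
    rw [mem_ball_zero_iff]
    exact lt_of_lt_of_le hy.1 (hB _)
  have hden : Measurable (fun y : ℂ => ENNReal.ofReal (psi y ^ 2 / ‖y‖ ^ 4)) :=
    ((meas_psi.pow_const 2).div (measurable_norm.pow_const 4)).ennreal_ofReal
  unfold lamD
  rw [integrable_withDensity_iff hden (Eventually.of_forall fun y => ENNReal.ofReal_lt_top)]
  have hfin : volume (Ddom R) < ⊤ := by
    refine lt_of_le_of_lt (measure_mono (hsub.trans inter_subset_right)) ?_
    exact measure_ball_lt_top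
  have hkap : ∀ y ∈ Ddom R, psi y ^ 2 * ‖kap (Ddom R) y‖ ^ 2 ≤ C * B ^ ((4 : ℝ) / 3) := by
    intro y hy
    have hyQ := Ddom_sub R hy
    have hps := psi_pos hyQ
    have hyB : ‖y‖ < B := by
      have := (hsub hy).2
      rwa [mem_ball_zero_iff] at this
    obtain ⟨i1, i2⟩ := hCb y hyQ hyB
    rw [← real_inner_self_eq_norm_sq, hin y hy y hy]
    unfold Gt
    have e1 : psi y ^ 2 * (Gam (Ddom R) y y / (psi y * psi y)) = Gam (Ddom R) y y := by
      field_simp
    rw [e1, (h2 R hR).2.2.2.2.2.1 y hy]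
    have e2 : ∫ z in Ddom R, (gD (Ddom R) y z) ^ 2 ≤ ∫ z in Qd ∩ Metric.ball 0 B, (GQ y z) ^ 2 := by
      calc ∫ z in Ddom R, (gD (Ddom R) y z) ^ 2 ≤ ∫ z in Ddom R, (GQ y z) ^ 2 := by
            refine setIntegral_mono_on ((h2 R hR).1 y hy) (i1.mono_set hsub) hDm ?_
            intro z hz
            exact pow_le_pow_left₀ ((hG R hR).nonneg _ _)
              (h1.2.2.2.2 (Ddom R) _ hDo (Ddom_sub R) (hG R hR) y hy z hz) 2
        _ ≤ _ := by
            refine setIntegral_mono_set i1 (Eventually.of_forall fun z => ?_) hsub.eventuallyLE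
            exact sq_nonneg _
    have e3 : psi y ^ ((4 : ℝ) / 3) ≤ B ^ ((4 : ℝ) / 3) :=
      Real.rpow_le_rpow hps.le ((psi_le hyQ).trans hyB.le) (by norm_num)
    calc ∫ z in Ddom R, (gD (Ddom R) y z) ^ 2 ≤ C * psi y ^ ((4 : ℝ) / 3) := e2.trans i2
      _ ≤ C * B ^ ((4 : ℝ) / 3) := mul_le_mul_of_nonneg_left e3 hC.le
  set K : ℝ := B * (2 * B ^ 2 + 2 * (C * B ^ ((4 : ℝ) / 3))) with hK
  refine Integrable.mono' (g := fun _ => K) ?_ ?_ ?_
  · exact integrableOn_const hfin.ne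
  · refine AEStronglyMeasurable.mul (AEStronglyMeasurable.mul ?_ ?_) ?_
    · exact (meas_tau.pow_const 20).aestronglyMeasurable
    · exact ((stronglyMeasurable_const.add hsm.norm).add (hsm.norm.pow 2)).aestronglyMeasurable
    · exact hden.ennreal_toReal.aestronglyMeasurable
  · filter_upwards [ae_restrict_mem hDm] with y hy
    have hyQ := Ddom_sub R hy
    have hps := psi_pos hyQ
    have hy0 := norm_pos_Qd hyQ
    have hyB : ‖y‖ < B := by
      have := (hsub hy).2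
      rwa [mem_ball_zero_iff] at this
    rw [ENNReal.toReal_ofReal (by positivity)]
    have ht := tau_pow y
    have ht0 : 0 ≤ tau y ^ 20 := pow_nonneg (tau_nonneg y) 20
    have hk := hkap y hy
    set k := ‖kap (Ddom R) y‖ with hk0
    have hkn : 0 ≤ k := norm_nonneg _
    have e1 : 1 + k + k ^ 2 ≤ 2 + 2 * k ^ 2 := by nlinarith [sq_nonneg (k - 1)]
    have e0 : 0 ≤ tau y ^ 20 * (1 + k + k ^ 2) * (psi y ^ 2 / ‖y‖ ^ 4) := by positivity
    rw [Real.norm_of_nonneg e0]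
    calc tau y ^ 20 * (1 + k + k ^ 2) * (psi y ^ 2 / ‖y‖ ^ 4) ≤
        ‖y‖ ^ 5 * (2 + 2 * k ^ 2) * (psi y ^ 2 / ‖y‖ ^ 4) := by
          apply mul_le_mul_of_nonneg_right _ (by positivity)
          exact mul_le_mul ht e1 (by positivity) (by positivity)
      _ = ‖y‖ * (2 * psi y ^ 2 + 2 * (psi y ^ 2 * k ^ 2)) := by
          field_simp
      _ ≤ K := by
          rw [hK]
          have e3 : psi y ^ 2 ≤ B ^ 2 := pow_le_pow_left₀ hps.le ((psi_le hyQ).trans hyB.le) 2
          refine mul_le_mul hyB.le (by linarith) (by positivity) hB0.le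

end LEP
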