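import Pool.Agent.Helper14.LE.Stmts

/-!
# Module T1: first bounds for the Green operator (`ST_T1` and `ST_T4`)
-/

open MeasureTheory Set Filter Topology

noncomputable section

namespace LEP

namespace T1

lemma Ddom_sub (R : ℝ → ℝ) : Ddom R ⊆ Qd := inter_subset_right

lemma Qd_meas : MeasurableSet Qd := by
  have : IsOpen Qd := by
    have : Qd = {z : ℂ | 0 < z.re} ∩ {z | 0 < z.im} := rfl
    rw [this]
    exact (isOpen_lt continuous_const Complex.continuous_re).inter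
      (isOpen_lt continuous_const Complex.continuous_im)
  exact this.measurableSet

lemma norm_pos_Qd {x : ℂ} (hx : x ∈ Qd) : 0 < ‖x‖ := by
  rw [norm_pos_iff]
  rintro rfl
  exact lt_irrefl _ hx.1

lemma psi_pos {x : ℂ} (hx : x ∈ Qd) : 0 < psi x := by
  unfold psi
  exact div_pos (mul_pos hx.1 hx.2) (norm_pos_Qd hx)

lemma im_sq_pos {x : ℂ} (hx : x ∈ Qd) : 0 < (x ^ 2).im := by
  rw [pow_two, Complex.mul_im]
  have := mul_pos hx.1 hx.2
  linarith

lemma meas_GQ (x : ℂ) : Measurable (fun y => GQ x y) := by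
  unfold GQ
  refine Measurable.const_mul ?_ _
  refine Real.measurable_log.comp ?_
  refine Measurable.const_add ?_ _
  refine Measurable.div ?_ ?_
  · refine Measurable.const_mul ?_ _
    exact (Complex.measurable_im.comp (measurable_id.pow_const 2))
  · refine Measurable.pow_const ?_ 2
    exact (measurable_const.sub (measurable_id.pow_const 2)).norm

lemma isOpen_Ddom (h : ST_GEO) {R : ℝ → ℝ} (hR : Prof R) : IsOpen (Ddom R) := (h.1 R hR).2.1

lemma gD_meas (hM : ST_MEAS) (hG : ST_GF2) (hE : ST_GEO) {R : ℝ → ℝ} (hR : Prof R) (x : ℂ) :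
    Measurable (fun y => gD (Ddom R) x y) := by
  have h := (hM (Ddom R) (gD (Ddom R)) (isOpen_Ddom hE hR) (hG R hR)).1
  exact h.comp (measurable_const.prodMk measurable_id)

lemma gD_le (h1 : ST_GQ1) (hG : ST_GF2) (hE : ST_GEO) {R : ℝ → ℝ} (hR : Prof R) {x y : ℂ}
    (hx : x ∈ Ddom R) (hy : y ∈ Ddom R) : gD (Ddom R) x y ≤ GQ x y :=
  h1.2.2.2.2 (Ddom R) _ (isOpen_Ddom hE hR) (Ddom_sub R) (hG R hR) x hx y hy

theorem st_T1' (h1 : ST_GQ1) (h2 : ST_GQ2) (hM : ST_MEAS) (hG : ST_GF2) (hE : ST_GEO) :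
    ST_T1 := by
  obtain ⟨C, hC, hCb⟩ := h2.1
  refine ⟨C ^ ((3 : ℝ) / 4), by positivity, ?_⟩
  intro R hR f hf hf4 x hx
  have hxQ : x ∈ Qd := Ddom_sub R hx
  have hDm : MeasurableSet (Ddom R) := (isOpen_Ddom hE hR).measurableSet
  obtain ⟨hQi, hQb⟩ := hCb x hxQ
  have hps := psi_pos hxQ
  have hx0 := norm_pos_Qd hxQ
  set μ : Measure ℂ := volume.restrict (Ddom R) with hμ
  have hQD : IntegrableOn (fun y => (GQ x y) ^ ((4 : ℝ) / 3)) (Ddom R) :=
    hQi.mono_set (Ddom_sub R)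
  have hgm := gD_meas hM hG hE hR x
  have hgn := (hG R hR).nonneg
  have hQn : ∀ y ∈ Ddom R, 0 ≤ GQ x y := fun y hy => (h1.1 x hxQ y (Ddom_sub R hy)).1
  -- the product `GQ * |f|`
  have hQae : 0 ≤ᵐ[μ] fun y => GQ x y := by
    filter_upwards [ae_restrict_mem hDm] with y hy
    exact hQn y hy
  have hL43 : MemLp (fun y => GQ x y) (ENNReal.ofReal ((4 : ℝ) / 3)) μ := by
    rw [← integrable_norm_rpow_iff (meas_GQ x).aestronglyMeasurable (by norm_num)
      ENNReal.ofReal_ne_top, ENNReal.toReal_ofReal (by norm_num)]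
    refine Integrable.congr (show Integrable (fun y => (GQ x y) ^ ((4 : ℝ) / 3)) μ from hQD) ?_
    filter_upwards [ae_restrict_mem hDm] with y hy
    rw [Real.norm_of_nonneg (hQn y hy)]
  have hL4 : MemLp (fun y => |f y|) (ENNReal.ofReal (4 : ℝ)) μ := by
    have hfa : AEStronglyMeasurable (fun y => |f y|) μ := hf.norm
    rw [← integrable_norm_rpow_iff hfa (by norm_num) ENNReal.ofReal_ne_top,
      ENNReal.toReal_ofReal (by norm_num)]
    refine Integrable.congr (show Integrable (fun y => (f y) ^ 4) μ from hf4) ?_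
    filter_upwards with y
    have : (‖|f y|‖ : ℝ) ^ (4 : ℝ) = |f y| ^ 4 := by
      rw [Real.norm_of_nonneg (abs_nonneg _), ← Real.rpow_natCast]; norm_num
    rw [this]
    have h4 : |f y| ^ 4 = (|f y| ^ 2) ^ 2 := by ring
    rw [h4, sq_abs]; ring
  have hconj : Real.HolderConjugate ((4 : ℝ) / 3) 4 := by
    rw [Real.holderConjugate_iff]; norm_num
  have hprod : Integrable (fun y => GQ x y * |f y|) μ := by
    have := hconj.ennrealOfReal
    exact MemLp.integrable_mul hL43 hL4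
  have hHol := integral_mul_le_Lp_mul_Lq_of_nonneg hconj hQae
    (Eventually.of_forall fun y => abs_nonneg (f y)) hL43 hL4
  have hle : ∀ y ∈ Ddom R, |gD (Ddom R) x y * f y| ≤ GQ x y * |f y| := by
    intro y hy
    rw [abs_mul, abs_of_nonneg (hgn x y)]
    exact mul_le_mul_of_nonneg_right (gD_le h1 hG hE hR hx hy) (abs_nonneg _)
  have hint : Integrable (fun y => gD (Ddom R) x y * f y) μ := by
    refine Integrable.mono' hprod (hgm.aestronglyMeasurable.mul hf) ?_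
    filter_upwards [ae_restrict_mem hDm] with y hy
    exact hle y hy
  refine ⟨hint, ?_⟩
  have e1 : |TD (Ddom R) f x| ≤ ∫ y, GQ x y * |f y| ∂μ := by
    calc |TD (Ddom R) f x| ≤ ∫ y, |gD (Ddom R) x y * f y| ∂μ := abs_integral_le_integral_abs
      _ ≤ ∫ y, GQ x y * |f y| ∂μ := by
          refine integral_mono_ae hint.abs hprod ?_
          filter_upwards [ae_restrict_mem hDm] with y hy
          exact hle y hy
  have e2 : ∫ y, (GQ x y) ^ ((4 : ℝ) / 3) ∂μ ≤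
      C * (psi x) ^ ((4 : ℝ) / 3) * ‖x‖ ^ ((2 : ℝ) / 3) := by
    refine le_trans ?_ hQb
    refine setIntegral_mono_set hQi ?_ (Ddom_sub R).eventuallyLE
    filter_upwards [ae_restrict_mem Qd_meas] with y hy
    exact Real.rpow_nonneg (h1.1 x hxQ y hy).1 _
  have e3 : ∫ y, |f y| ^ (4 : ℝ) ∂μ = ∫ y, (f y) ^ 4 ∂μ := by
    refine integral_congr_ae ?_
    filter_upwards with y
    have : (|f y| : ℝ) ^ (4 : ℝ) = |f y| ^ 4 := by
      rw [← Real.rpow_natCast]; norm_num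
    rw [this]
    have h4 : |f y| ^ 4 = (|f y| ^ 2) ^ 2 := by ring
    rw [h4, sq_abs]; ring
  have e0 : 0 ≤ ∫ y, (GQ x y) ^ ((4 : ℝ) / 3) ∂μ := by
    refine integral_nonneg_of_ae ?_
    filter_upwards [hQae] with y hy
    exact Real.rpow_nonneg hy _
  have e5 : 0 ≤ ∫ y, (f y) ^ 4 ∂μ := integral_nonneg fun y => by positivity
  calc |TD (Ddom R) f x| ≤ ∫ y, GQ x y * |f y| ∂μ := e1
    _ ≤ (∫ y, (GQ x y) ^ ((4 : ℝ) / 3) ∂μ) ^ (1 / ((4 : ℝ) / 3)) *
        (∫ y, |f y| ^ (4 : ℝ) ∂μ) ^ (1 / (4 : ℝ)) := hHol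
    _ ≤ (C * (psi x) ^ ((4 : ℝ) / 3) * ‖x‖ ^ ((2 : ℝ) / 3)) ^ (1 / ((4 : ℝ) / 3)) *
        (∫ y, (f y) ^ 4 ∂μ) ^ (1 / (4 : ℝ)) := by
        rw [e3]
        exact mul_le_mul_of_nonneg_right (Real.rpow_le_rpow e0 e2 (by norm_num))
          (Real.rpow_nonneg e5 _)
    _ = C ^ ((3 : ℝ) / 4) * psi x * ‖x‖ ^ ((1 : ℝ) / 2) *
        (∫ y in Ddom R, (f y) ^ 4) ^ ((1 : ℝ) / 4) := by
        rw [Real.mul_rpow (by positivity) (by positivity), Real.mul_rpow hC.le (by positivity),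
          ← Real.rpow_mul hps.le, ← Real.rpow_mul hx0.le]
        have a1 : (1 : ℝ) / (4 / 3) = 3 / 4 := by norm_num
        have a2 : (4 : ℝ) / 3 * (3 / 4) = 1 := by norm_num
        have a3 : (2 : ℝ) / 3 * (3 / 4) = 1 / 2 := by norm_num
        rw [a1, a2, a3, Real.rpow_one]

theorem st_T4' (h1 : ST_GQ1) (h2 : ST_GQ2) (hM : ST_MEAS) (hG : ST_GF2) (hE : ST_GEO) :
    ST_T4 := by
  intro B
  obtain ⟨C, hC, hCb⟩ := h2.2.1
  refine ⟨C * B ^ 2 + 1, by positivity, ?_⟩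
  intro R hR hRB f hf hfb x hx
  have hxQ : x ∈ Qd := Ddom_sub R hx
  have hDm : MeasurableSet (Ddom R) := (isOpen_Ddom hE hR).measurableSet
  have hsub : Ddom R ⊆ Qd ∩ Metric.ball 0 B := by
    intro y hy
    refine ⟨Ddom_sub R hy, ?_⟩
    rw [mem_ball_zero_iff]
    exact lt_of_lt_of_le hy.1 (hRB _)
  have hxB : ‖x‖ < B := by
    have := (hsub hx).2
    rwa [mem_ball_zero_iff] at this
  obtain ⟨hi, hb⟩ := hCb B x hxQ hxB
  have hgm := gD_meas hM hG hE hR x
  have hgn := (hG R hR).nonneg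
  have hiD : IntegrableOn (fun y => GQ x y * (y ^ 2).im) (Ddom R) := hi.mono_set hsub
  have hle : ∀ y ∈ Ddom R, |gD (Ddom R) x y * f y| ≤ GQ x y * (y ^ 2).im := by
    intro y hy
    rw [abs_mul, abs_of_nonneg (hgn x y)]
    exact mul_le_mul (gD_le h1 hG hE hR hx hy) (hfb y hy) (abs_nonneg _)
      (h1.1 x hxQ y (Ddom_sub R hy)).1
  have hint : IntegrableOn (fun y => gD (Ddom R) x y * f y) (Ddom R) := by
    refine Integrable.mono' hiD (hgm.aestronglyMeasurable.mul hf) ?_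
    filter_upwards [ae_restrict_mem hDm] with y hy
    exact hle y hy
  have hm : MeasurableSet (Qd ∩ Metric.ball (0 : ℂ) B) := Qd_meas.inter measurableSet_ball
  calc |TD (Ddom R) f x| ≤ ∫ y in Ddom R, |gD (Ddom R) x y * f y| := abs_integral_le_integral_abs
    _ ≤ ∫ y in Ddom R, GQ x y * (y ^ 2).im :=
        setIntegral_mono_on hint.abs hiD hDm hle
    _ ≤ ∫ y in Qd ∩ Metric.ball 0 B, GQ x y * (y ^ 2).im := by
        refine setIntegral_mono_set hi ?_ hsub.eventuallyLE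
        filter_upwards [ae_restrict_mem hm] with y hy
        exact mul_nonneg (h1.1 x hxQ y hy.1).1 (im_sq_pos hy.1).le
    _ ≤ C * B ^ 2 * (x ^ 2).im := hb
    _ ≤ (C * B ^ 2 + 1) * (x ^ 2).im := by
        have := im_sq_pos hxQ
        nlinarith

end T1

/-- **T1** -/
theorem st_T1 (h1 : ST_GQ1) (h2 : ST_GQ2) (hM : ST_MEAS) (hG : ST_GF2) (hE : ST_GEO) :
    ST_T1 := T1.st_T1' h1 h2 hM hG hE

/-- **T4** -/
theorem st_T4 (h1 : ST_GQ1) (h2 : ST_GQ2) (hM : ST_MEAS) (hG : ST_GF2) (hE : ST_GEO) :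
    ST_T4 := T1.st_T4' h1 h2 hM hG hE

end LEP
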