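import Pool.Agent.Helper14.LE.Stmts

/-!
# Module TM: monotonicity of the iterated kernel and convergence along an exhaustion
-/

open MeasureTheory Set Filter Topology

noncomputable section

namespace LEP

namespace TM

lemma Gam_eq {D : Set ℂ} (hG : IsGreen D (gD D)) (x y : ℂ) :
    Gam D x y = ∫ z, gD D x z * gD D z y := by
  unfold Gam
  refine setIntegral_eq_integral_of_forall_compl_eq_zero ?_
  intro z hz
  rw [hG.off x z (Or.inr hz), zero_mul]

lemma Ddom_mono {R R' : ℝ → ℝ} (h : ∀ t, R t ≤ R' t) : Ddom R ⊆ Ddom R' := by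
  intro z hz
  exact ⟨lt_of_lt_of_le hz.1 (h _), hz.2⟩

lemma int_whole (hG : ST_GF2) (hE : ST_GEO) (h2 : ST_T2) {R : ℝ → ℝ} (hR : Prof R) {x y : ℂ}
    (hx : x ∈ Ddom R) (hy : y ∈ Ddom R) :
    Integrable (fun z => gD (Ddom R) x z * gD (Ddom R) z y) := by
  have hDm : MeasurableSet (Ddom R) := ((hE.1 R hR).2.1).measurableSet
  have h := (h2 R hR).2.2.1 x hx y hy
  rw [← integrable_indicator_iff hDm] at h
  refine h.congr (Eventually.of_forall ?_)
  intro z
  by_cases hz : z ∈ Ddom R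
  · simp [indicator, hz]
  · simp only [indicator, hz, if_false]
    rw [(hG R hR).off x z (Or.inr hz), zero_mul]

end TM

/-- **TM** -/
theorem st_TM (hMo : ST_MONO) (hEx : ST_EXH) (hM : ST_MEAS) (hG : ST_GF2) (hE : ST_GEO)
    (h2 : ST_T2) : ST_TM := by
  have hmeas : ∀ R, Prof R → ∀ x y : ℂ,
      Measurable (fun z => gD (Ddom R) x z * gD (Ddom R) z y) := by
    intro R hR x y
    have h := (hM (Ddom R) (gD (Ddom R)) ((hE.1 R hR).2.1) (hG R hR)).1
    exact (h.comp (measurable_const.prodMk measurable_id)).mul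
      (h.comp (measurable_id.prodMk measurable_const))
  constructor
  · intro R R' hR hR' hle x hx y hy
    have hsub := TM.Ddom_mono hle
    have hm := hMo (Ddom R) (Ddom R') _ _ ((hE.1 R hR).2.1) ((hE.1 R' hR').2.1) hsub
      (hG R hR) (hG R' hR')
    rw [TM.Gam_eq (hG R hR), TM.Gam_eq (hG R' hR')]
    refine integral_mono_of_nonneg (Eventually.of_forall fun z => ?_)
      (TM.int_whole hG hE h2 hR' (hsub hx) (hsub hy)) (Eventually.of_forall fun z => ?_)
    · exact mul_nonneg ((hG R hR).nonneg _ _) ((hG R hR).nonneg _ _)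
    · exact mul_le_mul (hm x z) (hm z y) ((hG R hR).nonneg _ _) ((hG R' hR').nonneg _ _)
  · intro Rv hRv x hx y hy
    obtain ⟨hR0, hRn, hle, hmono, hun, -⟩ := hE.2 Rv hRv
    have hlim := hEx (fun n => Ddom (Rn Rv n)) (Ddom (R0 Rv)) (fun n => gD (Ddom (Rn Rv n)))
      (gD (Ddom (R0 Rv))) (fun n => (hE.1 _ (hRn n)).2.1) ((hE.1 _ hR0).2.1) hmono hun
      (fun n => hG _ (hRn n)) (hG _ hR0)
    have e : ∀ n, Gam (Ddom (Rn Rv n)) x y =
        ∫ z, gD (Ddom (Rn Rv n)) x z * gD (Ddom (Rn Rv n)) z y := fun n => TM.Gam_eq (hG _ (hRn n)) x y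
    simp only [e]
    rw [TM.Gam_eq (hG _ hR0)]
    refine tendsto_integral_of_dominated_convergence
      (fun z => gD (Ddom (R0 Rv)) x z * gD (Ddom (R0 Rv)) z y)
      (fun n => (hmeas _ (hRn n) x y).aestronglyMeasurable)
      (TM.int_whole hG hE h2 hR0 hx hy) (fun n => Eventually.of_forall fun z => ?_)
      (Eventually.of_forall fun z => ?_)
    · have hsub := TM.Ddom_mono (hle n)
      have hm := hMo (Ddom (Rn Rv n)) (Ddom (R0 Rv)) _ _ ((hE.1 _ (hRn n)).2.1)
        ((hE.1 _ hR0).2.1) hsub (hG _ (hRn n)) (hG _ hR0)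
      rw [Real.norm_of_nonneg (mul_nonneg ((hG _ (hRn n)).nonneg _ _) ((hG _ (hRn n)).nonneg _ _))]
      exact mul_le_mul (hm x z) (hm z y) ((hG _ (hRn n)).nonneg _ _) ((hG _ hR0).nonneg _ _)
    · exact (hlim x z).mul (hlim z y)

end LEP
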